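import Pool.Agent.QSX.StmtsF

set_option autoImplicit false

/-!
# Row CHA of squad QSX (MP_dc0713_gt): rational coordinates
-/

namespace Pool.Agent.QSX.H81

open Matrix Finset Pool.Agent.QSX

/-- The proof of row CHA: apply a rational linear projection of the reals onto the rationals. -/
theorem cha : ChaStmt := by
  intro m ι _ e w c hli he hw hsum
  classical
  obtain ⟨g, hg⟩ := LinearMap.exists_leftInverse_of_injective (Algebra.linearMap ℚ ℝ)
    (LinearMap.ker_eq_bot.2 (fun a b h => by
      have h' : ((a : ℚ) : ℝ) = ((b : ℚ) : ℝ) := h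
      exact_mod_cast h'))
  have hg1 : ∀ q : ℚ, g (q : ℝ) = q := fun q => by
    have := LinearMap.congr_fun hg q
    simpa using this
  have hgm : ∀ (x : ℝ) (q : ℚ), g (x * (q : ℝ)) = g x * q := by
    intro x q
    have : x * (q : ℝ) = q • x := by
      rw [Algebra.smul_def, mul_comm]
      rfl
    rw [this, map_smul, smul_eq_mul, mul_comm]
  choose e' he' using he
  choose w' hw' using hw
  have hkey : w = ∑ l, ((g (c l) : ℚ) : ℝ) • e l := by
    ext i j
    rw [Matrix.sum_apply]
    have h1 : w i j = ∑ l, c l * (e' l i j : ℝ) := by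
      have h2 := congrFun (congrFun hsum i) j
      rw [Matrix.sum_apply] at h2
      rw [h2]
      refine Finset.sum_congr rfl fun l _ => ?_
      rw [Matrix.smul_apply, smul_eq_mul, he']
    have h3 : w' i j = ∑ l, g (c l) * e' l i j := by
      have h4 := congrArg g h1
      rw [hw', hg1, map_sum] at h4
      rw [h4]
      exact Finset.sum_congr rfl fun l _ => hgm _ _
    rw [hw', h3]
    push_cast
    refine Finset.sum_congr rfl fun l _ => ?_
    rw [Matrix.smul_apply, smul_eq_mul, he']
  intro l
  refine ⟨g (c l), ?_⟩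
  have h5 : ∑ l, (c l - ((g (c l) : ℚ) : ℝ)) • e l = 0 := by
    simp only [sub_smul]
    rw [Finset.sum_sub_distrib, ← hsum, ← hkey, sub_self]
  have h6 := Fintype.linearIndependent_iff.1 hli _ h5 l
  linarith

end Pool.Agent.QSX.H81
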