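import Pool.Agent.QSX.StmtsC

set_option autoImplicit false

/-!
# Row CXE of squad QSX (MP_dc0713_gt): the complex linear extension
-/

namespace Pool.Agent.QSX.H81

open Matrix Finset Pool.Agent.QSX

/-- Eigenvectors for different eigenvalues with sum zero vanish. -/
lemma eig_zero {ι V : Type} [DecidableEq ι] [AddCommGroup V] [Module ℝ V] (A : V →ₗ[ℝ] V) (μ : ι → ℝ)
    (S : Finset ι) : ∀ w : ι → V, (∀ l ∈ S, ∀ l' ∈ S, l ≠ l' → μ l ≠ μ l') →
    (∀ l ∈ S, A (w l) = μ l • w l) → ∑ l ∈ S, w l = 0 → ∀ l ∈ S, w l = 0 := by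
  induction S using Finset.induction_on with
  | empty => intro w _ _ _ l hl; simp at hl
  | insert a S ha ih =>
    intro w hμ hA hsum
    rw [Finset.sum_insert ha] at hsum
    have h1 : A (w a + ∑ l ∈ S, w l) = 0 := by rw [hsum, map_zero]
    rw [map_add, map_sum, hA a (Finset.mem_insert_self _ _)] at h1
    have h2 : ∑ l ∈ S, A (w l) = ∑ l ∈ S, μ l • w l :=
      Finset.sum_congr rfl fun l hl => hA l (Finset.mem_insert_of_mem hl)
    rw [h2] at h1
    have h3 : ∑ l ∈ S, (μ l - μ a) • w l = 0 := by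
      have h4 : ∑ l ∈ S, (μ l - μ a) • w l = ∑ l ∈ S, μ l • w l - μ a • ∑ l ∈ S, w l := by
        rw [Finset.smul_sum, ← Finset.sum_sub_distrib]
        exact Finset.sum_congr rfl fun l _ => sub_smul _ _ _
      rw [h4]
      have h5 : ∑ l ∈ S, w l = - w a := by
        rw [eq_neg_iff_add_eq_zero, add_comm]
        exact hsum
      have h6 : ∑ l ∈ S, μ l • w l = - (μ a • w a) := by
        rw [eq_neg_iff_add_eq_zero, add_comm]
        exact h1
      rw [h5, h6, smul_neg, sub_neg_eq_add, neg_add_cancel]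
    have h7 := ih (fun l => (μ l - μ a) • w l)
      (fun l hl l' hl' => hμ l (Finset.mem_insert_of_mem hl) l' (Finset.mem_insert_of_mem hl'))
      (fun l hl => by
        rw [map_smul, hA l (Finset.mem_insert_of_mem hl)]
        rw [smul_comm]) h3
    have h8 : ∀ l ∈ S, w l = 0 := by
      intro l hl
      have h9 := h7 l hl
      simp only [smul_eq_zero] at h9
      rcases h9 with h9 | h9
      · exfalso
        refine hμ l (Finset.mem_insert_of_mem hl) a (Finset.mem_insert_self _ _) ?_ (by linarith)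
        rintro rfl
        exact ha hl
      · exact h9
    intro l hl
    rcases Finset.mem_insert.1 hl with rfl | hl
    · rw [Finset.sum_eq_zero h8, add_zero] at hsum
      exact hsum
    · exact h8 l hl

/-- The root vectors as elements of `n`. -/
lemma e_mem {X₀ : Dat} (hS : X₀.Split) (l : hS.ι) : hS.e l ∈ X₀.n := by
  rw [← hS.span_e]
  exact Submodule.subset_span ⟨l, rfl⟩

/-- Coordinates in root vectors. -/
lemma coord {X₀ : Dat} (hS : X₀.Split) (y : X₀.n) :
    ∃ c : hS.ι → ℝ, y = ∑ l, c l • (⟨hS.e l, e_mem hS l⟩ : X₀.n) := by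
  have hy : (y : Matrix (Fin X₀.m) (Fin X₀.m) ℝ) ∈ Submodule.span ℝ (Set.range hS.e) := by
    rw [hS.span_e]
    exact y.2
  obtain ⟨c, hc⟩ := (Submodule.mem_span_range_iff_exists_fun ℝ).1 hy
  refine ⟨c, ?_⟩
  apply Subtype.ext
  rw [← hc]
  simp

/-- The complexified map is injective. -/
lemma inj_key {X₀ Y : Dat} (hS : X₀.Split) (hY : Y.Cpx)
    (T : X₀.n →ₗ[ℝ] Matrix (Fin Y.m) (Fin Y.m) ℝ) (P : X₀.b →ₗ[ℝ] (Fin Y.m → ℝ))
    (hP : ∀ a, P a ∈ Y.b) (hTi : Function.Injective T)
    (had : ∀ (a : X₀.b) (x : X₀.n), T ⟨_, X₀.stab a a.2 x x.2⟩ =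
      diagonal (P a) * T x - T x * diagonal (P a))
    (y z : X₀.n) (h : T y + hY.J * T z = 0) : y = 0 ∧ z = 0 := by
  classical
  obtain ⟨c, hc⟩ := coord hS y
  obtain ⟨d, hd⟩ := coord hS z
  set E : hS.ι → X₀.n := fun l => ⟨hS.e l, e_mem hS l⟩ with hE
  -- an element of `b` on which all roots are different
  obtain ⟨a, ha⟩ : ∃ a : X₀.b, ∀ l l' : hS.ι, l ≠ l' → hS.rt l a ≠ hS.rt l' a := by
    have := Module.Dual.exists_forall_ne_zero_of_forall_exists (K := ℝ) (M := X₀.b)
      (ι := {p : hS.ι × hS.ι // p.1 ≠ p.2}) (fun p => hS.rt p.1.1 - hS.rt p.1.2) (by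
        intro p
        by_contra hcon
        push Not at hcon
        apply hS.nonprop p.1.1 p.1.2 p.2 1
        rw [one_smul]
        ext v
        have := hcon v
        rw [LinearMap.sub_apply, sub_eq_zero] at this
        exact this)
    obtain ⟨a, ha⟩ := this
    refine ⟨a, fun l l' hll' heq => ha ⟨(l, l'), hll'⟩ ?_⟩
    simp only [LinearMap.sub_apply]
    rw [heq, sub_self]
  -- the adjoint map
  set A : Matrix (Fin Y.m) (Fin Y.m) ℝ →ₗ[ℝ] Matrix (Fin Y.m) (Fin Y.m) ℝ :=
    LinearMap.mulLeft ℝ (diagonal (P a)) - LinearMap.mulRight ℝ (diagonal (P a)) with hAdef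
  have hAapp : ∀ x, A x = diagonal (P a) * x - x * diagonal (P a) := by
    intro x
    rw [hAdef, LinearMap.sub_apply, LinearMap.mulLeft_apply, LinearMap.mulRight_apply]
  have hTE : ∀ l, A (T (E l)) = hS.rt l a • T (E l) := by
    intro l
    rw [hAapp, ← had a (E l), ← map_smul]
    congr 1
    apply Subtype.ext
    exact hS.wt l a
  have hJE : ∀ x, A (hY.J * x) = hY.J * A x := by
    intro x
    rw [hAapp, hAapp, mul_sub, ← mul_assoc (diagonal (P a)), ← hY.comm_b _ (hP a), mul_assoc,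
      mul_assoc]
  have hw := eig_zero A (fun l => hS.rt l a) Finset.univ
    (fun l => c l • T (E l) + d l • (hY.J * T (E l)))
    (fun l _ l' _ hll' => ha l l' hll')
    (by
      intro l _
      rw [map_add, map_smul, map_smul, hJE, hTE, mul_smul_comm, smul_add, smul_comm (c l),
        smul_comm (d l)])
    (by
      rw [Finset.sum_add_distrib]
      have h1 : ∑ l, c l • T (E l) = T y := by
        rw [hc, map_sum]
        exact Finset.sum_congr rfl fun l _ => (map_smul _ _ _).symm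
      have h2 : ∑ l, d l • (hY.J * T (E l)) = hY.J * T z := by
        rw [hd, map_sum, Finset.mul_sum]
        refine Finset.sum_congr rfl fun l _ => ?_
        rw [map_smul, mul_smul_comm]
      rw [h1, h2, h])
  have hcd : ∀ l, c l = 0 ∧ d l = 0 := by
    intro l
    have h1 : c l • T (E l) + d l • (hY.J * T (E l)) = 0 := hw l (Finset.mem_univ _)
    have h2 : hY.J * (c l • T (E l) + d l • (hY.J * T (E l))) = 0 := by rw [h1, mul_zero]
    rw [mul_add, mul_smul_comm, mul_smul_comm, ← mul_assoc, hY.sq, neg_mul, one_mul] at h2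
    have h3 : (c l ^ 2 + d l ^ 2) • T (E l) = 0 := by
      have h4 : (c l ^ 2 + d l ^ 2) • T (E l) =
          c l • (c l • T (E l) + d l • (hY.J * T (E l))) -
          d l • (c l • (hY.J * T (E l)) + d l • (-(T (E l)))) := by
        module
      rw [h4, h1, h2, smul_zero, smul_zero, sub_zero]
    rcases smul_eq_zero.1 h3 with h5 | h5
    · constructor <;> nlinarith [sq_nonneg (c l), sq_nonneg (d l)]
    · exfalso
      have h6 : E l = 0 := by
        apply hTi
        rw [h5, map_zero]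
      have h7 : hS.e l = 0 := congrArg Subtype.val h6
      exact hS.lin.ne_zero l h7
  constructor
  · rw [hc]
    apply Finset.sum_eq_zero
    intro l _
    rw [(hcd l).1, zero_smul]
  · rw [hd]
    apply Finset.sum_eq_zero
    intro l _
    rw [(hcd l).2, zero_smul]

/-- The proof of row CXE. -/
theorem cxe : CxeStmt := by
  intro X X₀ Y hX ⟨C⟩ ⟨hS⟩ ⟨hY⟩ ⟨T1, P1, hT1, hP1, hT1i, hP1i, hlie, had⟩
  classical
  -- the decomposition of `n_X`
  let Φ : X₀.n × X₀.n →ₗ[ℝ] X.n :=
    { toFun := fun p => ⟨C.T p.1 + hX.J * C.T p.2,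
        X.n.add_mem (C.T_mem _) (hX.stab_n _ (C.T_mem _))⟩
      map_add' := by
        intro p q
        apply Subtype.ext
        simp only [Prod.fst_add, Prod.snd_add, map_add, mul_add, Submodule.coe_add]
        abel
      map_smul' := by
        intro r p
        apply Subtype.ext
        simp only [Prod.smul_fst, Prod.smul_snd, map_smul, mul_smul_comm, RingHom.id_apply,
          Submodule.coe_smul, smul_add] }
  have hΦ : ∀ p, ((Φ p : X.n) : Matrix (Fin X.m) (Fin X.m) ℝ) = C.T p.1 + hX.J * C.T p.2 :=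
    fun p => rfl
  have hΦb : Function.Bijective Φ := by
    constructor
    · rw [← LinearMap.ker_eq_bot, LinearMap.ker_eq_bot']
      intro p hp
      have h1 := congrArg Subtype.val hp
      rw [hΦ] at h1
      have h2 := C.ind p.1 p.2 h1
      exact Prod.ext h2.1 h2.2
    · intro x
      obtain ⟨y, z, hyz⟩ := C.dec x x.2
      exact ⟨(y, z), Subtype.ext hyz.symm⟩
  let e : (X₀.n × X₀.n) ≃ₗ[ℝ] X.n := LinearEquiv.ofBijective Φ hΦb
  have he : ∀ p, ((e p : X.n) : Matrix (Fin X.m) (Fin X.m) ℝ) = C.T p.1 + hX.J * C.T p.2 :=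
    fun p => rfl
  -- the decomposition of `b_X`
  let Q0 : X₀.b →ₗ[ℝ] X.b := C.P.codRestrict X.b C.P_mem
  have hQ0 : ∀ a, ((Q0 a : X.b) : Fin X.m → ℝ) = C.P a := fun a => rfl
  have hQ0b : Function.Bijective Q0 := by
    constructor
    · intro a b hab
      exact C.P_inj (congrArg Subtype.val hab)
    · intro c
      obtain ⟨a, ha⟩ := C.P_surj c c.2
      exact ⟨a, Subtype.ext ha⟩
  let q : X₀.b ≃ₗ[ℝ] X.b := LinearEquiv.ofBijective Q0 hQ0b
  have hq : ∀ a, ((q a : X.b) : Fin X.m → ℝ) = C.P a := fun a => rfl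
  -- the maps
  let G : X₀.n × X₀.n →ₗ[ℝ] Matrix (Fin Y.m) (Fin Y.m) ℝ :=
    T1.comp (LinearMap.fst ℝ _ _) + (LinearMap.mulLeft ℝ hY.J).comp (T1.comp (LinearMap.snd ℝ _ _))
  have hG : ∀ p, G p = T1 p.1 + hY.J * T1 p.2 := fun p => rfl
  refine ⟨G.comp e.symm.toLinearMap, P1.comp q.symm.toLinearMap, ?_, ?_, ?_, ?_, ?_, ?_⟩
  · intro x
    simp only [LinearMap.comp_apply, LinearEquiv.coe_coe]
    rw [hG]
    exact Y.n.add_mem (hT1 _) (hY.stab_n _ (hT1 _))
  · intro a
    exact hP1 _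
  · rw [← LinearMap.ker_eq_bot, LinearMap.ker_eq_bot']
    intro x hx
    simp only [LinearMap.comp_apply, LinearEquiv.coe_coe] at hx
    rw [hG] at hx
    have h1 := inj_key hS hY T1 P1 hP1 hT1i had _ _ hx
    have h2 : e.symm x = 0 := Prod.ext h1.1 h1.2
    exact (LinearEquiv.map_eq_zero_iff e.symm).1 h2
  · exact hP1i.comp q.symm.injective
  · -- the brackets
    intro x x'
    obtain ⟨⟨y, z⟩, rfl⟩ := e.surjective x
    obtain ⟨⟨y', z'⟩, rfl⟩ := e.surjective x'
    -- the brackets in `X₀`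
    have hbr : ∀ u v : X₀.n, ∃ w : X₀.n,
        C.T w = C.T u * C.T v - C.T v * C.T u ∧ T1 w = T1 u * T1 v - T1 v * T1 u :=
      fun u v => ⟨⟨_, X₀.lie u u.2 v v.2⟩, C.T_lie u v, hlie u v⟩
    obtain ⟨w1, hw1, hv1⟩ := hbr y y'
    obtain ⟨w2, hw2, hv2⟩ := hbr z z'
    obtain ⟨w3, hw3, hv3⟩ := hbr y z'
    obtain ⟨w4, hw4, hv4⟩ := hbr z y'
    -- the computation in a ring
    have comp : ∀ {n : ℕ} (J a b a' b' : Matrix (Fin n) (Fin n) ℝ), J * J = -1 →
        J * a = a * J → J * b = b * J → J * a' = a' * J → J * b' = b' * J →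
        (a + J * b) * (a' + J * b') - (a' + J * b') * (a + J * b) =
        ((a * a' - a' * a) - (b * b' - b' * b)) +
          J * ((a * b' - b' * a) + (b * a' - a' * b)) := by
      intro n J a b a' b' hJ h1 h2 h3 h4
      have e1 : (a + J * b) * (a' + J * b') = a * a' + a * J * b' + J * (b * a') +
          J * (b * J) * b' := by noncomm_ring
      have e2 : (a' + J * b') * (a + J * b) = a' * a + a' * J * b + J * (b' * a) +
          J * (b' * J) * b := by noncomm_ring
      have e3 : J * (J * b) * b' = -(b * b') := by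
        rw [← mul_assoc, hJ]
        noncomm_ring
      have e4 : J * (J * b') * b = -(b' * b) := by
        rw [← mul_assoc, hJ]
        noncomm_ring
      rw [e1, e2, ← h1, ← h2, ← h3, ← h4, e3, e4]
      noncomm_ring
    have hmain : (⟨_, X.lie (e (y, z)) (e (y, z)).2 (e (y', z')) (e (y', z')).2⟩ : X.n) =
        e (w1 - w2, w3 + w4) := by
      apply Subtype.ext
      change (C.T y + hX.J * C.T z) * (C.T y' + hX.J * C.T z') -
        (C.T y' + hX.J * C.T z') * (C.T y + hX.J * C.T z) =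
        C.T (w1 - w2) + hX.J * C.T (w3 + w4)
      rw [comp hX.J _ _ _ _ hX.sq (hX.comm_n _ (C.T_mem _)) (hX.comm_n _ (C.T_mem _))
        (hX.comm_n _ (C.T_mem _)) (hX.comm_n _ (C.T_mem _)), map_sub, map_add, hw1, hw2, hw3, hw4]
    rw [hmain]
    simp only [LinearMap.comp_apply, LinearEquiv.coe_coe, LinearEquiv.symm_apply_apply]
    rw [hG, hG, hG]
    simp only
    rw [comp hY.J _ _ _ _ hY.sq (hY.comm_n _ (hT1 _)) (hY.comm_n _ (hT1 _))
        (hY.comm_n _ (hT1 _)) (hY.comm_n _ (hT1 _)), map_sub, map_add, hv1, hv2, hv3, hv4]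
  · -- the action of `b`
    intro a x
    obtain ⟨⟨y, z⟩, rfl⟩ := e.surjective x
    obtain ⟨a, rfl⟩ := q.surjective a
    have hbr : ∀ u : X₀.n, ∃ w : X₀.n,
        C.T w = diagonal (C.P a) * C.T u - C.T u * diagonal (C.P a) ∧
        T1 w = diagonal (P1 a) * T1 u - T1 u * diagonal (P1 a) :=
      fun u => ⟨⟨_, X₀.stab a a.2 u u.2⟩, C.T_ad a u, had a u⟩
    obtain ⟨w1, hw1, hv1⟩ := hbr y
    obtain ⟨w2, hw2, hv2⟩ := hbr z
    have comp : ∀ {n : ℕ} (J D a b : Matrix (Fin n) (Fin n) ℝ), J * D = D * J →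
        D * (a + J * b) - (a + J * b) * D = (D * a - a * D) + J * (D * b - b * D) := by
      intro n J D a b h1
      have e1 : D * (a + J * b) = D * a + (D * J) * b := by noncomm_ring
      rw [e1, ← h1]
      noncomm_ring
    have hmain : (⟨_, X.stab (q a) (q a).2 (e (y, z)) (e (y, z)).2⟩ : X.n) =
        e (w1, w2) := by
      apply Subtype.ext
      change diagonal (C.P a) * (C.T y + hX.J * C.T z) -
        (C.T y + hX.J * C.T z) * diagonal (C.P a) = C.T w1 + hX.J * C.T w2
      rw [comp hX.J _ _ _ (hX.comm_b _ (C.P_mem a)), hw1, hw2]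
    rw [hmain]
    simp only [LinearMap.comp_apply, LinearEquiv.coe_coe, LinearEquiv.symm_apply_apply]
    rw [hG, hG]
    simp only
    rw [comp hY.J _ _ _ (hY.comm_b _ (hP1 a)), hv1, hv2]

end Pool.Agent.QSX.H81
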