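import Pool.Agent.QSX.StmtsA
import Pool.Agent.QSX.StmtsG

set_option autoImplicit false

/-!
# Row ROO of squad QSX (MP_dc0713_gt): rational one parameter groups
-/

namespace Pool.Agent.QSX.H81

open Matrix Finset Pool.Agent.QSX

/-- Homomorphisms from an additive group. -/
lemma hom_zsmul {A G : Type} [AddCommGroup A] [Group G] (F : A → G)
    (hF : ∀ x y, F (x + y) = F x * F y) (n : ℤ) (x : A) : F (n • x) = F x ^ n := by
  let φ : Multiplicative A →* G :=
    MonoidHom.mk' (fun x => F (Multiplicative.toAdd x)) (fun x y => hF _ _)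
  have := map_zpow φ (Multiplicative.ofAdd x) n
  exact this

/-- The proof of row ROO. -/
theorem roo (hlgm : LgmStmt) : RooStmt := by
  intro R _ _ m f hf hU x
  obtain ⟨h1, h2⟩ := hlgm R m
  have hz : ∀ y, SU (mlog (f y : Matrix (Fin m) (Fin m) R)) := fun y => (h2 _ (hU y)).1
  have hfz : ∀ y, f y = ue (mlog (f y : Matrix (Fin m) (Fin m) R)) := by
    intro y
    apply Units.ext
    rw [ue_val (hz y)]
    exact ((h2 _ (hU y)).2).symm
  have hpow : ∀ (n : ℤ) (y : ℚ), ue ((n : ℝ) • mlog (f y : Matrix (Fin m) (Fin m) R)) =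
      f y ^ n := by
    intro n y
    have h3 := hom_zsmul (fun t : ℝ => ue (t • mlog (f y : Matrix (Fin m) (Fin m) R)))
      (fun s t => ue_add' (hz y) s t) n 1
    simp only [one_smul, zsmul_eq_mul, mul_one] at h3
    rw [h3, ← hfz y]
  have hx : (x.den : ℤ) • x = x.num • (1 : ℚ) := by
    simp only [zsmul_eq_mul, mul_one, Int.cast_natCast]
    rw [mul_comm]
    exact Rat.mul_den_eq_num x
  have h4 : f x ^ (x.den : ℤ) = f 1 ^ x.num := by
    rw [← hom_zsmul f hf, ← hom_zsmul f hf, hx]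
  rw [← hpow, ← hpow] at h4
  have h5 := congrArg (fun u : (Matrix (Fin m) (Fin m) R)ˣ =>
    mlog (u : Matrix (Fin m) (Fin m) R)) h4
  rw [ue_val ((hz x).smul _), ue_val ((hz 1).smul _), (h1 _ ((hz x).smul _)).2,
    (h1 _ ((hz 1).smul _)).2] at h5
  have hd : ((x.den : ℤ) : ℝ) ≠ 0 := by
    have := x.den_nz
    exact_mod_cast this
  have h6 : mlog (f x : Matrix (Fin m) (Fin m) R) =
      (x : ℝ) • mlog (f 1 : Matrix (Fin m) (Fin m) R) := by
    have h7 : (x : ℝ) = (((x.den : ℤ) : ℝ))⁻¹ * (x.num : ℝ) := by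
      rw [inv_mul_eq_div]
      have h8 := Rat.num_div_den x
      have h9 : ((((x.num : ℚ) / (x.den : ℚ)) : ℚ) : ℝ) = (x : ℝ) := by rw [h8]
      rw [← h9]
      push_cast
      rfl
    rw [h7, mul_smul, ← h5, smul_smul, inv_mul_cancel₀ hd, one_smul]
  rw [← h6]
  exact hfz x

end Pool.Agent.QSX.H81
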